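import Pool.Agent.W191.CY.Rec

/-!
# The star formula
-/

set_option autoImplicit false

namespace Pool.Agent.W191.CY

open Pool.Agent.W739.CY Finset

variable {C : Type}

theorem dl_mul (p k : ℝ) (f : List C → ℝ) (w : List C) :
    dl p (fun u => k * f u) w = k * dl p f w := by
  unfold dl
  rw [← spl_mul]
  exact spl_congr fun _ _ _ _ => by ring

theorem dl_add (p : ℝ) (f g : List C → ℝ) (w : List C) :
    dl p (fun u => f u + g u) w = dl p f w + dl p g w := by
  unfold dl
  rw [← spl_add]
  exact spl_congr fun _ _ _ _ => by ring

theorem dl_sub (p : ℝ) (f g : List C → ℝ) (w : List C) :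
    dl p (fun u => f u - g u) w = dl p f w - dl p g w := by
  unfold dl
  rw [← spl_sub]
  exact spl_congr fun _ _ _ _ => by ring

theorem dl_sum {ι : Type} (p : ℝ) (s : Finset ι) (f : ι → List C → ℝ) (w : List C) :
    dl p (fun u => ∑ i ∈ s, f i u) w = ∑ i ∈ s, dl p (f i) w := by
  unfold dl
  rw [← spl_sum]
  exact spl_congr fun _ _ _ _ => by rw [Finset.mul_sum]

theorem dl_congr (p : ℝ) {f g : List C → ℝ} {w : List C}
    (h : ∀ w', w'.length + 1 = w.length → f w' = g w') : dl p f w = dl p g w := by
  unfold dl
  refine spl_congr fun v c u hw => ?_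
  rw [h (v ++ u) (by rw [hw]; simp only [List.length_append, List.length_cons]; omega)]

theorem dl_eq_zero (p : ℝ) {f : List C → ℝ} {w : List C} (h : ∀ w', f w' = 0) :
    dl p f w = 0 := by
  unfold dl
  exact spl_eq_zero fun v c u _ => by rw [h, mul_zero]

theorem dl_nil (p : ℝ) (f : List C → ℝ) : dl p f [] = 0 := rfl

/-- `0` for the empty word and `1` for the others -/
def nn : List C → ℝ
  | [] => 0
  | _ :: _ => 1

theorem lst_append (a : Option C) (u : List C) (z : C) : lst a (u ++ [z]) = some z := by
  induction u generalizing a with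
  | nil => rfl
  | cons y u ih => exact ih _

theorem lst_cons_ne (a : Option C) (y : C) (u : List C) : lst a (y :: u) ≠ none := by
  induction u generalizing a y with
  | nil => simp [lst]
  | cons z u ih => exact ih (some y) z

theorem lst_append' (a : Option C) (s u : List C) : lst a (s ++ u) = lst (lst a s) u := by
  induction s generalizing a with
  | nil => rfl
  | cons y s ih => exact ih _

theorem sum_some [DecidableEq C] [Fintype C] (o : Option C) (K : ℝ) :
    ∑ x : C, (if o = some x then K else 0) = if o = none then 0 else K := by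
  cases o with
  | none => simp
  | some y => simp

theorem not_Pr_append {a b : Option C} {u v : List C} {x : C} (h1 : lst a u = some x)
    (h2 : hd b v = some x) : ¬ Pr a (u ++ v) b := by
  intro h
  cases v with
  | nil =>
    rw [List.append_nil] at h
    have h2' : b = some x := h2
    rw [h2', Pr_right] at h
    exact h.2 h1
  | cons y v =>
    have h2' : some y = some x := h2
    rw [Pr_append, Pr_right] at h
    rw [h2'] at h
    exact h.1.2 h1

variable [DecidableEq C]

theorem DUl (hDEL : S_DEL) {p : ℝ} (hp : Good p) (a b : Option C) (u v : List C) (x : C)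
    (h : lst a u = some x) :
    dl p (fun u' => F p a (u' ++ x :: v) b) u = nn u * F p a (u ++ v) b := by
  rcases List.eq_nil_or_concat u with rfl | ⟨u', z, rfl⟩
  · simp [dl_nil, nn]
  · rw [List.concat_eq_append] at h ⊢
    rw [lst_append] at h
    have hz : z = x := by simpa using h
    subst hz
    have e1 : nn (u' ++ [z]) = 1 := by
      cases u' <;> rfl
    unfold dl
    rw [spl_append, e1, one_mul]
    have e2 : spl (fun v_1 c u_1 => p ^ (u_1 ++ [z]).length *
        F p a (v_1 ++ (u_1 ++ [z]) ++ z :: v) b) u' = 0 := by
      refine spl_eq_zero fun s c t _ => ?_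
      rw [F_imp hDEL hp, mul_zero]
      rw [Pr_append, Pr_right]
      intro hh
      apply hh.1.2
      rw [← List.append_assoc, lst_append]
    rw [e2, spl_cons, spl_nil]
    simp

theorem DVr (hDEL : S_DEL) {p : ℝ} (hp : Good p) (a b : Option C) (u v : List C) (x : C)
    (h : hd b v = some x) :
    dl p (fun v' => F p a (u ++ x :: v') b) v = p ^ v.length * p⁻¹ * nn v * F p a (u ++ v) b := by
  cases v with
  | nil => simp [dl_nil, nn]
  | cons y v =>
    have hy : y = x := by
      have : some y = some x := h
      simpa using this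
    subst hy
    unfold dl
    rw [spl_cons]
    have e2 : spl (fun s c t => p ^ t.length * F p a (u ++ y :: (y :: s ++ t)) b) v = 0 := by
      refine spl_eq_zero fun s c t _ => ?_
      rw [F_imp hDEL hp, mul_zero]
      rw [Pr_append, Pr_left]
      intro hh
      apply hh.2.2
      rfl
    rw [e2]
    have e3 : p ^ (y :: v).length * p⁻¹ = p ^ v.length := by
      rw [List.length_cons, pow_succ, mul_assoc, mul_inv_cancel₀ hp.ne, mul_one]
    rw [e3]
    simp [nn]

theorem lemX (hDEL : S_DEL) {p : ℝ} (hp : Good p) (a b : Option C) (u v : List C) (x : C)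
    (hu : Pr a u none) (hv : Pr none v b) :
    (1 - p ^ (u.length + v.length + 1)) * F p a (u ++ x :: v) b =
      p ^ (v.length + 1) * dl p (fun u' => F p a (u' ++ x :: v) b) u +
      dl p (fun v' => F p a (u ++ x :: v') b) v +
      p ^ v.length * (1 - (if lst a u = some x then 1 + p * nn u else 0) -
        (if hd b v = some x then 1 + p⁻¹ * nn v else 0)) * F p a (u ++ v) b := by
  by_cases hl : lst a u = some x
  · have z1 : ∀ v', F p a (u ++ x :: v') b = 0 := by
      intro v'
      apply F_imp hDEL hp
      rw [Pr_append, Pr_right]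
      exact fun hh => hh.1.2 hl
    rw [DUl hDEL hp a b u v x hl, z1 v, dl_eq_zero p z1, if_pos hl]
    by_cases hr : hd b v = some x
    · rw [F_imp hDEL hp (not_Pr_append hl hr)]
      ring
    · rw [if_neg hr]
      ring
  · by_cases hr : hd b v = some x
    · have z1 : ∀ u', F p a (u' ++ x :: v) b = 0 := by
        intro u'
        apply F_imp hDEL hp
        rw [Pr_append, Pr_left]
        exact fun hh => hh.2.2 hr
      rw [DVr hDEL hp a b u v x hr, z1 u, dl_eq_zero p z1, if_neg hl, if_pos hr]
      ring
    · have hP : Pr a (u ++ x :: v) b := by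
        rw [Pr_append, Pr_right, Pr_left]
        exact ⟨⟨hu, hl⟩, ⟨hv, hr⟩⟩
      have h1 := dlF hDEL hp a b (u ++ x :: v) hP
      have e1 : (u ++ x :: v).length = u.length + v.length + 1 := by
        simp only [List.length_append, List.length_cons]; omega
      rw [e1] at h1
      rw [← h1, if_neg hl, if_neg hr]
      unfold dl
      rw [spl_append, spl_cons, ← spl_mul]
      have e2 : spl (fun v_1 c u_1 => p ^ (u_1 ++ x :: v).length *
          F p a (v_1 ++ (u_1 ++ x :: v)) b) u =
          spl (fun v_1 c u_1 => p ^ (v.length + 1) * (p ^ u_1.length *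
            F p a (v_1 ++ u_1 ++ x :: v) b)) u := by
        refine spl_congr fun s c t _ => ?_
        rw [List.length_append, List.length_cons, pow_add, List.append_assoc]
        ring
      have e3 : spl (fun v_1 c u_1 => p ^ u_1.length * F p a (u ++ x :: v_1 ++ u_1) b) v =
          spl (fun v_1 c u_1 => p ^ u_1.length * F p a (u ++ x :: (v_1 ++ u_1)) b) v := by
        refine spl_congr fun s c t _ => ?_
        rw [List.append_assoc]
        rfl
      rw [e2, e3]
      simp only [List.append_nil]
      ring

variable [Fintype C]

/-- the left side of the star formula -/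
noncomputable def LL (p : ℝ) (a b : Option C) (u v : List C) : ℝ :=
  ∑ x : C, F p a (u ++ x :: v) b

theorem LL_rec (hDEL : S_DEL) {p : ℝ} (hp : Good p)
    (hq : (Fintype.card C : ℝ) * p = (1 + p) ^ 2) (a b : Option C) (u v : List C)
    (hu : Pr a u none) (hv : Pr none v b) :
    (1 - p ^ (u.length + v.length + 1)) * LL p a b u v =
      p ^ (v.length + 1) * dl p (fun u' => LL p a b u' v) u +
      dl p (fun v' => LL p a b u v') v +
      (al p b * ((1 - nn v) * F p a u b) +
        be p a * (p ^ (v.length + 1) * ((1 - nn u) * F p a v b))) := by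
  have h1 : (1 - p ^ (u.length + v.length + 1)) * LL p a b u v =
      ∑ x : C, (p ^ (v.length + 1) * dl p (fun u' => F p a (u' ++ x :: v) b) u +
      dl p (fun v' => F p a (u ++ x :: v') b) v +
      p ^ v.length * (1 - (if lst a u = some x then 1 + p * nn u else 0) -
        (if hd b v = some x then 1 + p⁻¹ * nn v else 0)) * F p a (u ++ v) b) := by
    rw [LL, Finset.mul_sum]
    exact Finset.sum_congr rfl fun x _ => lemX hDEL hp a b u v x hu hv
  rw [h1, Finset.sum_add_distrib, Finset.sum_add_distrib, ← Finset.mul_sum]
  unfold LL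
  rw [dl_sum, dl_sum]
  congr 1
  rw [← Finset.sum_mul, ← Finset.mul_sum, Finset.sum_sub_distrib, Finset.sum_sub_distrib,
    sum_some, sum_some, Finset.sum_const, nsmul_eq_mul, mul_one, Finset.card_univ]
  have hp0 := hp.ne
  have hq' : (Fintype.card C : ℝ) = p + 2 + p⁻¹ := by
    field_simp
    linear_combination hq
  rw [hq']
  cases u with
  | nil =>
    cases v with
    | nil =>
      show p ^ 0 * (p + 2 + p⁻¹ - (if a = none then 0 else 1 + p * 0) -
        (if b = none then 0 else 1 + p⁻¹ * 0)) * F p a [] b =
        al p b * ((1 - 0) * F p a [] b) + be p a * (p ^ (0 + 1) * ((1 - 0) * F p a [] b))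
      unfold al be
      by_cases ha : a = none <;> by_cases hb : b = none <;> simp only [ha, hb, if_true, if_false] <;>
        field_simp <;> ring
    | cons y v =>
      show p ^ (y :: v).length * (p + 2 + p⁻¹ - (if a = none then 0 else 1 + p * 0) -
        (if some y = none then 0 else 1 + p⁻¹ * 1)) * F p a (y :: v) b =
        al p b * ((1 - 1) * F p a [] b) + be p a * (p ^ ((y :: v).length + 1) *
          ((1 - 0) * F p a (y :: v) b))
      unfold be
      rw [if_neg (by simp : ¬ (some y = none)), pow_succ p (y :: v).length]
      by_cases ha : a = none <;> simp only [ha, if_true, if_false] <;>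
        field_simp <;> ring
  | cons z u =>
    cases v with
    | nil =>
      show p ^ 0 * (p + 2 + p⁻¹ - (if lst a (z :: u) = none then 0 else 1 + p * 1) -
        (if b = none then 0 else 1 + p⁻¹ * 0)) * F p a (z :: u ++ []) b =
        al p b * ((1 - 0) * F p a (z :: u) b) + be p a * (p ^ (0 + 1) * ((1 - 1) * F p a [] b))
      unfold al
      rw [if_neg (lst_cons_ne a z u), List.append_nil]
      by_cases hb : b = none <;> simp only [hb, if_true, if_false] <;>
        field_simp <;> ring
    | cons y v =>
      show p ^ (y :: v).length * (p + 2 + p⁻¹ - (if lst a (z :: u) = none then 0 else 1 + p * 1) -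
        (if some y = none then 0 else 1 + p⁻¹ * 1)) * F p a (z :: u ++ y :: v) b =
        al p b * ((1 - 1) * F p a (z :: u) b) + be p a * (p ^ ((y :: v).length + 1) *
          ((1 - 1) * F p a (y :: v) b))
      rw [if_neg (lst_cons_ne a z u), if_neg (by simp : ¬ (some y = none))]
      ring

end Pool.Agent.W191.CY
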