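import Pool.Agent.W191.CY.Gap

/-!
# The star formula: the right side and the proof
-/

set_option autoImplicit false

namespace Pool.Agent.W191.CY

open Pool.Agent.W739.CY Finset

variable {C : Type} [DecidableEq C]

/-- first term of the right side -/
noncomputable def T1 (p : ℝ) (a b : Option C) (u v : List C) : ℝ :=
  (1 / (1 - p ^ (v.length + 1)) * F p none v b) *
    (F p a u none - HH p a b (v.length + 1) u)

/-- second term of the right side -/
noncomputable def T2 (p : ℝ) (a b : Option C) (u v : List C) : ℝ :=
  (p ^ (u.length + 1) / (1 - p ^ (u.length + 1)) * F p a u none) *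
    (F p none v b - MM p a b (u.length + 1) v)

theorem F_nil (hDEL : S_DEL) {p : ℝ} (hp : Good p) {a b : Option C} (h : ok a b) :
    F p a ([] : List C) b = 1 := by
  rw [(hDEL C p hp a b).1, if_pos h]

theorem T1_v (hDEL : S_DEL) (hVL : S_VL) {p : ℝ} (hp : Good p) (a b : Option C) (u v : List C)
    (hab : ok a b) (hv : Pr none v b) :
    dl p (fun v' => T1 p a b u v') v + (1 - nn v) * F p a u b =
      F p none v b * (F p a u none - HH p a b v.length u) := by
  cases v with
  | nil =>
    have h := hVL C p hp a b u hab
    have e : HH p a b ([] : List C).length u = spl (fun v c u => if some c = b then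
      F p a v b * F p b u none / (1 - p ^ (u.length + 1)) else 0) u := rfl
    rw [dl_nil, e, F_nil hDEL hp (ok_none_left b), h]
    show 0 + (1 - 0) * _ = _
    ring
  | cons y v =>
    have h1 : dl p (fun v' => T1 p a b u v') (y :: v) =
        dl p (fun v' => (1 / (1 - p ^ (y :: v).length) *
          (F p a u none - HH p a b (y :: v).length u)) * F p none v' b) (y :: v) := by
      refine dl_congr p fun w' hw => ?_
      unfold T1
      rw [hw]
      ring
    rw [h1, dl_mul, dlF hDEL hp none b (y :: v) hv]
    have n1 : 1 - p ^ (y :: v).length ≠ 0 := hp.sub v.length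
    show _ + (1 - 1) * _ = _
    field_simp
    ring

theorem T1_rec (hDEL : S_DEL) (hVL : S_VL) {p : ℝ} (hp : Good p) (a b : Option C) (u v : List C)
    (hab : ok a b) (hu : Pr a u none) (hv : Pr none v b) :
    (1 - p ^ (u.length + v.length + 1)) * T1 p a b u v =
      p ^ (v.length + 1) * dl p (fun u' => T1 p a b u' v) u +
      dl p (fun v' => T1 p a b u v') v + (1 - nn v) * F p a u b := by
  have h0 := T1_v hDEL hVL hp a b u v hab hv
  have h4 : p ^ (v.length + 1) * dl p (fun u' => T1 p a b u' v) u +
      dl p (fun v' => T1 p a b u v') v + (1 - nn v) * F p a u b =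
      p ^ (v.length + 1) * dl p (fun u' => T1 p a b u' v) u +
        F p none v b * (F p a u none - HH p a b v.length u) := by
    rw [← h0]
    ring
  rw [h4]
  have h1 : dl p (fun u' => T1 p a b u' v) u = (1 / (1 - p ^ (v.length + 1)) * F p none v b) *
      ((1 - p ^ u.length) * F p a u none - dl p (HH p a b (v.length + 1)) u) := by
    unfold T1
    rw [dl_mul, dl_sub, dlF hDEL hp a none u hu]
  have h2 := HH_rec hDEL hp a b v.length u hu
  rw [h1]
  unfold T1
  have n1 : 1 - p ^ (v.length + 1) ≠ 0 := hp.sub v.length
  have h3 : (1 - p ^ (u.length + v.length + 1)) * (F p a u none - HH p a b (v.length + 1) u) =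
      p ^ (v.length + 1) * ((1 - p ^ u.length) * F p a u none - dl p (HH p a b (v.length + 1)) u) +
      (1 - p ^ (v.length + 1)) * (F p a u none - HH p a b v.length u) := by
    rw [mul_sub, h2]
    ring
  field_simp
  linear_combination (F p none v b) * h3

theorem T2_u (hDEL : S_DEL) (hVR : S_VR) {p : ℝ} (hp : Good p) (a b : Option C) (u v : List C)
    (hab : ok a b) (hu : Pr a u none) :
    dl p (fun u' => T2 p a b u' v) u + (1 - nn u) * F p a v b =
      p ^ u.length * F p a u none * (F p none v b - MM p a b u.length v) := by
  cases u with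
  | nil =>
    have h := hVR C p hp a b v hab
    have e : MM p a b ([] : List C).length v = spl (fun v c u => if some c = a then
      p ^ v.length / (1 - p ^ (v.length + 1)) * F p none v a * F p a u b else 0) v := by
      unfold MM
      refine spl_congr fun v1 y v2 _ => ?_
      rw [List.length_nil, zero_add]
    rw [dl_nil, e, F_nil hDEL hp (ok_none_right a), h]
    show 0 + (1 - 0) * _ = p ^ 0 * 1 * _
    ring
  | cons y u =>
    have h1 : dl p (fun u' => T2 p a b u' v) (y :: u) =
        dl p (fun u' => (p ^ (y :: u).length / (1 - p ^ (y :: u).length) *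
          (F p none v b - MM p a b (y :: u).length v)) * F p a u' none) (y :: u) := by
      refine dl_congr p fun w' hw => ?_
      unfold T2
      rw [hw]
      ring
    rw [h1, dl_mul, dlF hDEL hp a none (y :: u) hu]
    have n1 : 1 - p ^ (y :: u).length ≠ 0 := hp.sub u.length
    show _ + (1 - 1) * _ = _
    field_simp
    ring

theorem T2_rec (hDEL : S_DEL) (hVR : S_VR) {p : ℝ} (hp : Good p) (a b : Option C) (u v : List C)
    (hab : ok a b) (hu : Pr a u none) (hv : Pr none v b) :
    (1 - p ^ (u.length + v.length + 1)) * T2 p a b u v =
      p ^ (v.length + 1) * dl p (fun u' => T2 p a b u' v) u +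
      dl p (fun v' => T2 p a b u v') v + p ^ (v.length + 1) * ((1 - nn u) * F p a v b) := by
  have h0 := T2_u hDEL hVR hp a b u v hab hu
  have h1 : dl p (fun v' => T2 p a b u v') v =
      (p ^ (u.length + 1) / (1 - p ^ (u.length + 1)) * F p a u none) *
      ((1 - p ^ v.length) * F p none v b - dl p (MM p a b (u.length + 1)) v) := by
    unfold T2
    rw [dl_mul, dl_sub, dlF hDEL hp none b v hv]
  have h2 := MM_rec hDEL hp a b u.length v hv
  have h4 : p ^ (v.length + 1) * dl p (fun u' => T2 p a b u' v) u +
      dl p (fun v' => T2 p a b u v') v + p ^ (v.length + 1) * ((1 - nn u) * F p a v b) =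
      p ^ (v.length + 1) * (p ^ u.length * F p a u none *
        (F p none v b - MM p a b u.length v)) + dl p (fun v' => T2 p a b u v') v := by
    rw [← h0]
    ring
  rw [h4, h1]
  unfold T2
  have n1 : 1 - p ^ (u.length + 1) ≠ 0 := hp.sub u.length
  have e1 : u.length + v.length + 1 = u.length + 1 + v.length := by omega
  have h3 : (1 - p ^ (u.length + 1 + v.length)) * (F p none v b - MM p a b (u.length + 1) v) =
      p ^ v.length * (1 - p ^ (u.length + 1)) * (F p none v b - MM p a b u.length v) +
      ((1 - p ^ v.length) * F p none v b - dl p (MM p a b (u.length + 1)) v) := by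
    rw [mul_sub, h2]
    ring
  rw [e1]
  have h5 : (1 - p ^ (u.length + 1 + v.length)) *
      (p ^ (u.length + 1) / (1 - p ^ (u.length + 1)) * F p a u none *
        (F p none v b - MM p a b (u.length + 1) v)) =
      p ^ (u.length + 1) / (1 - p ^ (u.length + 1)) * F p a u none *
      ((1 - p ^ (u.length + 1 + v.length)) * (F p none v b - MM p a b (u.length + 1) v)) := by
    ring
  rw [h5, h3]
  field_simp
  ring

variable [Fintype C]

theorem gap (hDEL : S_DEL) (hVL : S_VL) (hVR : S_VR) {p : ℝ} (hp : Good p)
    (hq : (Fintype.card C : ℝ) * p = (1 + p) ^ 2) (a b : Option C) (hab : ok a b) (n : ℕ) :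
    ∀ u v : List C, u.length + v.length = n →
      LL p a b u v = al p b * T1 p a b u v + be p a * T2 p a b u v := by
  induction n using Nat.strong_induction_on with
  | _ n ih =>
    intro u v hn
    by_cases hu : Pr a u none
    · by_cases hv : Pr none v b
      · have r0 := LL_rec hDEL hp hq a b u v hu hv
        have r1 := T1_rec hDEL hVL hp a b u v hab hu hv
        have r2 := T2_rec hDEL hVR hp a b u v hab hu hv
        have d1 : dl p (fun u' => LL p a b u' v) u =
            al p b * dl p (fun u' => T1 p a b u' v) u +
              be p a * dl p (fun u' => T2 p a b u' v) u := by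
          rw [← dl_mul, ← dl_mul, ← dl_add]
          refine dl_congr p fun w' hw => ?_
          exact ih (w'.length + v.length) (by omega) w' v rfl
        have d2 : dl p (fun v' => LL p a b u v') v =
            al p b * dl p (fun v' => T1 p a b u v') v +
              be p a * dl p (fun v' => T2 p a b u v') v := by
          rw [← dl_mul, ← dl_mul, ← dl_add]
          refine dl_congr p fun w' hw => ?_
          exact ih (u.length + w'.length) (by omega) u w' rfl
        have n1 : 1 - p ^ (u.length + v.length + 1) ≠ 0 := hp.sub _
        apply mul_left_cancel₀ n1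
        rw [r0, d1, d2]
        linear_combination -(al p b * r1) - (be p a * r2)
      · have z0 : F p none v b = 0 := F_imp hDEL hp hv
        have z1 : MM p a b (u.length + 1) v = 0 := by
          refine spl_eq_zero fun v1 y v2 hw => ?_
          by_cases hy : some y = a
          · rw [if_pos hy, ← hy]
            rw [hw, Pr_append, not_and_or] at hv
            rcases hv with h | h
            · rw [F_imp hDEL hp h]; ring
            · rw [F_imp hDEL hp h]; ring
          · rw [if_neg hy]
        have z2 : LL p a b u v = 0 := by
          refine Finset.sum_eq_zero fun x _ => ?_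
          apply F_imp hDEL hp
          rw [Pr_append, Pr_left]
          exact fun hh => hv hh.2.1
        rw [z2, T1, T2, z0, z1]
        ring
    · have z0 : F p a u none = 0 := F_imp hDEL hp hu
      have z1 : HH p a b (v.length + 1) u = 0 := by
        refine spl_eq_zero fun v1 y v2 hw => ?_
        by_cases hy : some y = b
        · rw [if_pos hy, ← hy]
          rw [hw, Pr_append, not_and_or] at hu
          rcases hu with h | h
          · rw [F_imp hDEL hp h]; ring
          · rw [F_imp hDEL hp h]; ring
        · rw [if_neg hy]
      have z2 : LL p a b u v = 0 := by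
        refine Finset.sum_eq_zero fun x _ => ?_
        apply F_imp hDEL hp
        rw [Pr_append, Pr_right]
        exact fun hh => hu hh.1.1
      rw [z2, T1, T2, z0, z1]
      ring

omit [DecidableEq C] [Fintype C] in
theorem t_GAP (hDEL : S_DEL) (hVL : S_VL) (hVR : S_VR) : S_GAP := by
  intro C _ _ p hp hq a b u v hab
  have h := gap hDEL hVL hVR hp hq a b hab _ u v rfl
  unfold LL T1 T2 HH MM at h
  rw [h]
  ring

end Pool.Agent.W191.CY
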