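import Pool.Agent.W191.CY.Spl

/-!
# Recursions for the two sides of the star formula
-/

set_option autoImplicit false

namespace Pool.Agent.W191.CY

open Pool.Agent.W739.CY Finset

variable {C : Type}

/-- last letter, or the left wall -/
def lst : Option C → List C → Option C
  | a, [] => a
  | _, y :: u => lst (some y) u

/-- first letter, or the right wall -/
def hd (b : Option C) : List C → Option C
  | [] => b
  | y :: _ => some y

theorem ok_none_right (a : Option C) : ok a none := by
  cases a with
  | none => exact Or.inl rfl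
  | some x => exact Or.inr (by simp)

theorem ok_none_left (b : Option C) : ok none b := Or.inl rfl

theorem Pr_append (a b : Option C) (u v : List C) (x : C) :
    Pr a (u ++ x :: v) b ↔ Pr a u (some x) ∧ Pr (some x) v b := by
  induction u generalizing a with
  | nil => exact Iff.rfl
  | cons y u ih =>
    show (ok a (some y) ∧ Pr (some y) (u ++ x :: v) b) ↔
      (ok a (some y) ∧ Pr (some y) u (some x)) ∧ Pr (some x) v b
    rw [ih, and_assoc]

theorem Pr_right (a : Option C) (u : List C) (x : C) :
    Pr a u (some x) ↔ Pr a u none ∧ lst a u ≠ some x := by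
  induction u generalizing a with
  | nil =>
    show ok a (some x) ↔ ok a none ∧ a ≠ some x
    cases a with
    | none => exact ⟨fun _ => ⟨Or.inl rfl, by simp⟩, fun _ => Or.inl rfl⟩
    | some y =>
      constructor
      · intro h
        exact ⟨ok_none_right _, h.resolve_left (by simp)⟩
      · intro h
        exact Or.inr h.2
  | cons y u ih =>
    show (ok a (some y) ∧ Pr (some y) u (some x)) ↔
      (ok a (some y) ∧ Pr (some y) u none) ∧ lst (some y) u ≠ some x
    rw [ih, and_assoc]

theorem Pr_left (b : Option C) (v : List C) (x : C) :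
    Pr (some x) v b ↔ Pr none v b ∧ hd b v ≠ some x := by
  cases v with
  | nil =>
    show ok (some x) b ↔ ok none b ∧ b ≠ some x
    constructor
    · intro h
      exact ⟨Or.inl rfl, (h.resolve_left (by simp)).symm⟩
    · intro h
      exact Or.inr h.2.symm
  | cons y v =>
    show (ok (some x) (some y) ∧ Pr (some y) v b) ↔
      (ok none (some y) ∧ Pr (some y) v b) ∧ some y ≠ some x
    constructor
    · rintro ⟨h, h'⟩
      exact ⟨⟨Or.inl rfl, h'⟩, (h.resolve_left (by simp)).symm⟩
    · rintro ⟨⟨-, h⟩, h'⟩
      exact ⟨Or.inr h'.symm, h⟩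

variable [DecidableEq C]

theorem dlF (hDEL : S_DEL) {p : ℝ} (hp : Good p) (a b : Option C) (w : List C) (h : Pr a w b) :
    dl p (fun w => F p a w b) w = (1 - p ^ w.length) * F p a w b := by
  rcases w with _ | ⟨x, w⟩
  · simp [dl, spl_nil]
  · rw [(hDEL C p hp a b).2.2.2.1 (x :: w) (by simp) h]
    rfl

theorem F_imp (hDEL : S_DEL) {p : ℝ} (hp : Good p) {a b : Option C} {w : List C}
    (h : ¬ Pr a w b) : F p a w b = 0 := (hDEL C p hp a b).2.1 w h

/-- the sum in the formula VL, with shifted exponents -/
noncomputable def HH (p : ℝ) (a b : Option C) (s : ℕ) (u : List C) : ℝ :=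
  spl (fun u1 y u2 => if some y = b then
    F p a u1 b * F p b u2 none / (1 - p ^ (u2.length + 1 + s)) else 0) u

/-- the sum in the formula VR, with shifted exponents -/
noncomputable def MM (p : ℝ) (a b : Option C) (s : ℕ) (v : List C) : ℝ :=
  spl (fun v1 y v2 => if some y = a then
    p ^ (s + v1.length) / (1 - p ^ (s + v1.length + 1)) * F p none v1 a * F p a v2 b else 0) v

theorem HH_rec (hDEL : S_DEL) {p : ℝ} (hp : Good p) (a b : Option C) (s : ℕ) (u : List C)
    (hu : Pr a u none) :
    (1 - p ^ (u.length + s + 1)) * HH p a b (s + 1) u =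
      p ^ (s + 1) * dl p (HH p a b (s + 1)) u + (1 - p ^ (s + 1)) * HH p a b s u := by
  have h1 : dl p (HH p a b (s + 1)) u = dl p (spl (fun u1 y u2 => if some y = b then
    F p a u1 b * F p b u2 none / (1 - p ^ (u2.length + 1 + (s + 1))) else 0)) u := rfl
  rw [h1, dl_spl, HH, HH, ← spl_mul, ← spl_mul, ← spl_mul, ← spl_add]
  refine spl_congr fun u1 y u2 hw => ?_
  by_cases hy : some y = b
  · simp only [if_pos hy]
    subst hy
    rw [hw, Pr_append] at hu
    have e1 : dl p (fun u' => F p a u1 (some y) * F p (some y) u' none /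
        (1 - p ^ (u'.length + 1 + (s + 1)))) u2 =
        F p a u1 (some y) * ((1 - p ^ u2.length) * F p (some y) u2 none) /
          (1 - p ^ (u2.length + (s + 1))) := by
      rw [← dlF hDEL hp (some y) none u2 hu.2]
      unfold dl
      rw [mul_div_assoc, div_eq_mul_inv, mul_comm _ (1 - p ^ (u2.length + (s + 1)))⁻¹, ← spl_mul,
        ← spl_mul]
      refine spl_congr fun v c t ht => ?_
      have : u2.length + (s + 1) = (v ++ t).length + 1 + (s + 1) := by
        rw [ht]; simp only [List.length_append, List.length_cons]; omega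
      rw [this]
      ring
    have e2 : dl p (fun v' => F p a v' (some y) * F p (some y) u2 none /
        (1 - p ^ (u2.length + 1 + (s + 1)))) u1 =
        (1 - p ^ u1.length) * F p a u1 (some y) * F p (some y) u2 none /
          (1 - p ^ (u2.length + 1 + (s + 1))) := by
      rw [← dlF hDEL hp a (some y) u1 hu.1]
      unfold dl
      rw [mul_div_assoc, mul_comm, ← spl_mul]
      refine spl_congr fun v c t ht => ?_
      ring
    rw [e1, e2]
    have e3 : u.length = u1.length + u2.length + 1 := by
      rw [hw]; simp only [List.length_append, List.length_cons]; omega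
    rw [e3]
    have n1 : 1 - p ^ (u2.length + 1 + (s + 1)) ≠ 0 := hp.sub (u2.length + 1 + s)
    have n2 : 1 - p ^ (u2.length + (s + 1)) ≠ 0 := hp.sub (u2.length + s)
    have n3 : 1 - p ^ (u2.length + 1 + s) ≠ 0 := by
      have := hp.sub (u2.length + s)
      rwa [show u2.length + s + 1 = u2.length + 1 + s by omega] at this
    have n4 : u2.length + (s + 1) = u2.length + 1 + s := by omega
    rw [n4] at n2 ⊢
    field_simp
    ring
  · simp only [if_neg hy]
    unfold dl
    have : ∀ w : List C, spl (fun v _ u => p ^ u.length * (0 : ℝ)) w = 0 := fun w =>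
      spl_eq_zero fun _ _ _ _ => mul_zero _
    rw [this, this]
    ring

theorem MM_rec (hDEL : S_DEL) {p : ℝ} (hp : Good p) (a b : Option C) (s : ℕ) (v : List C)
    (hv : Pr none v b) :
    (1 - p ^ (s + 1 + v.length)) * MM p a b (s + 1) v =
      p ^ v.length * (1 - p ^ (s + 1)) * MM p a b s v + dl p (MM p a b (s + 1)) v := by
  have h1 : dl p (MM p a b (s + 1)) v = dl p (spl (fun v1 y v2 => if some y = a then
    p ^ (s + 1 + v1.length) / (1 - p ^ (s + 1 + v1.length + 1)) * F p none v1 a * F p a v2 b
      else 0)) v := rfl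
  rw [h1, dl_spl, MM, MM, ← spl_mul, ← spl_mul, ← spl_add]
  refine spl_congr fun v1 y v2 hw => ?_
  by_cases hy : some y = a
  · simp only [if_pos hy]
    subst hy
    rw [hw, Pr_append] at hv
    have e1 : dl p (fun v' => p ^ (s + 1 + v1.length) / (1 - p ^ (s + 1 + v1.length + 1)) *
        F p none v1 (some y) * F p (some y) v' b) v2 =
        p ^ (s + 1 + v1.length) / (1 - p ^ (s + 1 + v1.length + 1)) *
        F p none v1 (some y) * ((1 - p ^ v2.length) * F p (some y) v2 b) := by
      rw [← dlF hDEL hp (some y) b v2 hv.2]
      unfold dl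
      rw [← spl_mul]
      refine spl_congr fun v c t ht => ?_
      ring
    have e2 : dl p (fun v' => p ^ (s + 1 + v'.length) / (1 - p ^ (s + 1 + v'.length + 1)) *
        F p none v' (some y) * F p (some y) v2 b) v1 =
        p ^ (s + v1.length) / (1 - p ^ (s + v1.length + 1)) *
        ((1 - p ^ v1.length) * F p none v1 (some y)) * F p (some y) v2 b := by
      rw [← dlF hDEL hp none (some y) v1 hv.1]
      unfold dl
      rw [mul_assoc, mul_left_comm, mul_comm, ← spl_mul]
      refine spl_congr fun v c t ht => ?_
      have : s + v1.length = s + 1 + (v ++ t).length := by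
        rw [ht]; simp only [List.length_append, List.length_cons]; omega
      rw [this]
      ring
    rw [e1, e2]
    have e3 : v.length = v1.length + v2.length + 1 := by
      rw [hw]; simp only [List.length_append, List.length_cons]; omega
    rw [e3]
    have n1 : 1 - p ^ (s + 1 + v1.length + 1) ≠ 0 := hp.sub (s + 1 + v1.length)
    have n3 : 1 - p ^ (s + v1.length + 1) ≠ 0 := hp.sub (s + v1.length)
    field_simp
    ring
  · simp only [if_neg hy]
    unfold dl
    have : ∀ w : List C, spl (fun v _ u => p ^ u.length * (0 : ℝ)) w = 0 := fun w =>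
      spl_eq_zero fun _ _ _ _ => mul_zero _
    rw [this, this]
    ring

end Pool.Agent.W191.CY
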