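import Pool.Agent.W739.CY.Stm

/-!
# Sums over splittings of a word
-/

set_option autoImplicit false

namespace Pool.Agent.W191.CY

open Pool.Agent.W739.CY Finset

variable {C : Type}

theorem spl_nil (f : List C → C → List C → ℝ) : spl f [] = 0 := rfl

theorem spl_cons (f : List C → C → List C → ℝ) (x : C) (w : List C) :
    spl f (x :: w) = f [] x w + spl (fun v c u => f (x :: v) c u) w := rfl

theorem spl_congr {f g : List C → C → List C → ℝ} {w : List C}
    (h : ∀ v c u, w = v ++ c :: u → f v c u = g v c u) : spl f w = spl g w := by
  induction w generalizing f g with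
  | nil => rfl
  | cons x w ih =>
    rw [spl_cons, spl_cons, h [] x w rfl, ih (fun v c u e => h (x :: v) c u (by rw [e]; rfl))]

theorem spl_zero (w : List C) : spl (fun _ _ _ => 0) w = 0 := by
  induction w with
  | nil => rfl
  | cons x w ih => rw [spl_cons, ih, add_zero]

theorem spl_eq_zero {f : List C → C → List C → ℝ} {w : List C}
    (h : ∀ v c u, w = v ++ c :: u → f v c u = 0) : spl f w = 0 := by
  rw [spl_congr h, spl_zero]

theorem spl_add (f g : List C → C → List C → ℝ) (w : List C) :
    spl (fun v c u => f v c u + g v c u) w = spl f w + spl g w := by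
  induction w generalizing f g with
  | nil => simp [spl_nil]
  | cons x w ih => rw [spl_cons, spl_cons, spl_cons, ih]; ring

theorem spl_sub (f g : List C → C → List C → ℝ) (w : List C) :
    spl (fun v c u => f v c u - g v c u) w = spl f w - spl g w := by
  induction w generalizing f g with
  | nil => simp [spl_nil]
  | cons x w ih => rw [spl_cons, spl_cons, spl_cons, ih]; ring

theorem spl_mul (k : ℝ) (f : List C → C → List C → ℝ) (w : List C) :
    spl (fun v c u => k * f v c u) w = k * spl f w := by
  induction w generalizing f with
  | nil => simp [spl_nil]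
  | cons x w ih => rw [spl_cons, spl_cons, ih]; ring

theorem spl_sum {ι : Type} (s : Finset ι) (f : ι → List C → C → List C → ℝ) (w : List C) :
    spl (fun v c u => ∑ i ∈ s, f i v c u) w = ∑ i ∈ s, spl (f i) w := by
  induction w generalizing f with
  | nil => simp [spl_nil]
  | cons x w ih =>
    rw [spl_cons, ih (fun i v c u => f i (x :: v) c u), ← Finset.sum_add_distrib]
    rfl

theorem spl_append (f : List C → C → List C → ℝ) (w1 w2 : List C) :
    spl f (w1 ++ w2) = spl (fun v c u => f v c (u ++ w2)) w1 +
      spl (fun v c u => f (w1 ++ v) c u) w2 := by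
  induction w1 generalizing f with
  | nil => simp [spl_nil]
  | cons x w ih =>
    rw [List.cons_append, spl_cons, ih, spl_cons]
    simp only [List.cons_append]
    ring

/-- the deletion operator -/
noncomputable def dl (p : ℝ) (f : List C → ℝ) (w : List C) : ℝ :=
  spl (fun v _ u => p ^ u.length * f (v ++ u)) w

/-- the deletion operator applied to a sum over splittings -/
theorem dl_spl (p : ℝ) (h : List C → C → List C → ℝ) (w : List C) :
    dl p (spl h) w = spl (fun v y u => dl p (fun u' => h v y u') u +
      p ^ (u.length + 1) * dl p (fun v' => h v' y u) v) w := by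
  unfold dl
  induction w generalizing h with
  | nil => rfl
  | cons x w ih =>
    rw [spl_cons, spl_cons]
    simp only [List.nil_append, List.cons_append, spl_cons, spl_nil, mul_zero, add_zero, mul_add]
    rw [spl_add, ih (fun v c u => h (x :: v) c u)]
    simp only [spl_add]
    have e : spl (fun v y u => p ^ (u.length + 1) * (p ^ v.length * h v y u)) w =
        p ^ w.length * spl h w := by
      rw [← spl_mul]
      refine spl_congr fun v c u hw => ?_
      rw [hw, List.length_append, List.length_cons]
      ring
    rw [e]
    ring

end Pool.Agent.W191.CY
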